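import Pool.Agent.R866.TF.Main

/-!
# A `ℤ`-homology fibre bundle with smooth total space and smooth general fibres which is not smooth

`X ⊆ ℂ × ℙ(ℂ^ι)` is a closed connected-fibred complex submanifold of dimension 3 (so `X` is normal
and the first projection `f : X → ℂ` is a projective morphism of complex manifolds). `f` is a
submersion over `ℂ ∖ {0}` with connected fibres (smooth projective surfaces), `f` is a `ℤ`-homology
fibre bundle, but `f` is not a submersion at some point over `0`. This answers Question 1 in the
negative: the normalization of `X` is `X`, and `f` is not smooth.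

The definitions are those of `Pool.Agent.Helper922.HB.Defs`.
-/

set_option linter.all false

open scoped LinearAlgebra.Projectivization

namespace Pool.Agent.Results.MP_ed9921_ag.CuspidalBielliptic

open Pool.Agent.Helper922.HB

theorem result : ∃ (ι : Type) (_ : Fintype ι) (X : Set (ℂ × ℙ ℂ (ι → ℂ))),
    IsClosedSubmanifold 3 X ∧
    (∀ t : ℂ, IsConnected {p ∈ X | p.1 = t}) ∧
    (∀ p ∈ X, p.1 ≠ 0 → ProjSubmersiveAt 3 X p) ∧
    IsZHomologyFiberBundle (fun x : X => x.1.1) ∧
    ∃ p ∈ X, p.1 = 0 ∧ ¬ ProjSubmersiveAt 3 X p :=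
  ⟨Pool.Agent.R866.TF.K6, inferInstance, Pool.Agent.R866.TF.XX,
    Pool.Agent.R866.TF.submanifold_XX, Pool.Agent.R866.TF.connected_fibre,
    Pool.Agent.R866.TF.submersive_XX, Pool.Agent.R866.TF.bundle_X,
    Pool.Agent.R866.TF.not_submersive_XX⟩

end Pool.Agent.Results.MP_ed9921_ag.CuspidalBielliptic
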